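import Pool.Agent.MP_e11434_an.Basis

/-! MP_e11434_an: a separable Banach space with a 1-unconditional basis that is not an SCD space and
has the Daugavet property in no equivalent norm. -/

open Pool.Agent.E11434

namespace Pool.Agent.Results.MP_e11434_an.UnconditionalNonSCD

theorem result :
    ∃ (X : Type) (_ : NormedAddCommGroup X) (_ : NormedSpace ℝ X),
      CompleteSpace X ∧ TopologicalSpace.SeparableSpace X ∧
      (∃ (e : ℕ → X) (φ : ℕ → X →L[ℝ] ℝ),
        (∀ i j, φ i (e j) = if i = j then 1 else 0) ∧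
        (∀ x, HasSum (fun i => φ i x • e i) x) ∧
        ∀ (x : X) (A : Finset ℕ) (s : ℕ → ℝ), (∀ i, |s i| ≤ 1) →
          ‖∑ i ∈ A, (s i * φ i x) • e i‖ ≤ ‖x‖) ∧
      (∃ A : Set X, A.Nonempty ∧ Convex ℝ A ∧ Bornology.IsBounded A ∧ ¬ SCD A) ∧
      ∀ (Y : Type) [NormedAddCommGroup Y] [NormedSpace ℝ Y], (X ≃L[ℝ] Y) → ¬ Daugavet Y :=
  tree_space

end Pool.Agent.Results.MP_e11434_an.UnconditionalNonSCD
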